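import Pool.Agent.LSG.StmtsB

/-!
# Squad LSG, row SZD: S-stability of `X × ℤ` gives a map
-/

set_option autoImplicit false

namespace Pool.Agent.LSG.H88

open Pool.Agent.LSG

theorem szd : SzdStmt := by
  intro X _ h
  obtain ⟨T, hT1, hT2⟩ := h
  let e : C(X × OnePoint ℕ, (X × ℤ) × OnePoint ℕ) :=
    ⟨fun p => ((p.1, 0), p.2), by fun_prop⟩
  let q : C((X × ℤ) × OnePoint ℕ, X × OnePoint ℕ) :=
    ⟨fun p => (p.1.1, p.2), by fun_prop⟩
  let U : C(X × ℤ, ℝ) →ₗ[ℝ] C(X × OnePoint ℕ, ℝ) :=
    { toFun := fun f => (T.symm f).comp e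
      map_add' := by
        intro f g
        rw [map_add]
        rfl
      map_smul' := by
        intro c f
        rw [map_smul]
        rfl }
  refine ⟨U, ?_, ?_⟩
  · refine continuous_pi fun y => ?_
    exact (continuous_apply (e y)).comp hT2
  · intro g F ε hε
    refine ⟨T (g.comp q), fun y _ => ?_⟩
    have h1 : U (T (g.comp q)) y = g y := by
      show (T.symm (T (g.comp q))).comp e y = g y
      rw [LinearEquiv.symm_apply_apply]
      rfl
    rw [h1, sub_self, abs_zero]
    exact hε

end Pool.Agent.LSG.H88
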